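import Pool.Agent.Q191.ML.Sums

/-!
# Equality of the relative traces
-/

set_option autoImplicit false

namespace Pool.Agent.Q191.ML

open Finset NumberField Polynomial
open Pool.Agent.Q262.AB (fib mem_fib trace_fib card_fib exists_coord)
open Pool.Agent.Y820.MG (eigs eigs_spec isRoot_eigs exists_den fden_monic fden fden_eq)
open Pool.Agent.H225R3.Marg (emb norm_int_eq)

variable {k F : Type} [Field k] [NumberField k] [Field F] [NumberField F] [Algebra F k] {n : ℕ}

open Classical in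
theorem norm_diff_le {A : Matrix (Fin n) (Fin n) (𝓞 k)} {S : Finset (k →+* ℂ)} {lam : ℝ}
    (h : Bdd A S lam) {i j : ℕ} (hij : j ≤ i) (σ : F →+* ℂ) :
    ‖emb σ (rsO F A i - rsO F A j)‖ ≤ 2 * n * Module.finrank F k *
      (if σ ∈ below F S then lam ^ i else 1) := by
  set v : F →ₐ[ℚ] ℂ := σ.toRatAlgHom with hv
  have hvσ : (v : F →+* ℂ) = σ := by
    ext a
    rfl
  have h1 : emb σ (rsO F A i - rsO F A j) = v (rs F A i) - v (rs F A j) := by
    rw [map_sub]
    rfl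
  rw [h1]
  have h2 := norm_rs_le (F := F) h v i
  have h3 := norm_rs_le (F := F) h v j
  rw [hvσ] at h2 h3
  have h4 : (if σ ∈ below F S then lam ^ j else 1) ≤ if σ ∈ below F S then lam ^ i else 1 := by
    split_ifs
    · exact pow_le_pow_right₀ h.one_le hij
    · exact le_rfl
  have h5 : (0 : ℝ) ≤ n * Module.finrank F k := by positivity
  have h6 := mul_le_mul_of_nonneg_left h4 h5
  refine (norm_sub_le _ _).trans ?_
  linarith

theorem eq_rs {A : Matrix (Fin n) (Fin n) (𝓞 k)} {S : Finset (k →+* ℂ)} {lam : ℝ}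
    (h : Bdd A S lam) {s : ℕ} (hS : S.card ≤ s) {p : ℕ} (hp : p.Prime) (T : Finset (Ideal (𝓞 F)))
    (hT : ∀ P ∈ T, P.IsPrime ∧ (p : 𝓞 F) ∈ P) {L : ℕ}
    (hL : ∀ P ∈ T, ∀ x : 𝓞 F, x ^ p ^ L - x ∈ P) (j l : ℕ)
    (hlt : (2 * n * Module.finrank F k : ℝ) ^ Module.finrank ℚ F * lam ^ (s * (j * p ^ (l + L))) <
      (∏ P ∈ T, (Ideal.absNorm P : ℝ)) ^ (l + 1)) :
    rs F A (j * p ^ (l + L)) = rs F A (j * p ^ l) := by
  classical
  by_contra hne
  set x : 𝓞 F := rsO F A (j * p ^ (l + L)) - rsO F A (j * p ^ l) with hx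
  have hx0 : x ≠ 0 := by
    intro h0
    apply hne
    rw [hx, sub_eq_zero] at h0
    exact congrArg (fun z : 𝓞 F => (z : F)) h0
  have h1 := norm_lower p hp T hT (l + 1) x hx0 fun P hP =>
    rs_cong A P p hp (hT P hP).2 L (hL P hP) j l
  have h2 : (∏ P ∈ T, (Ideal.absNorm P : ℝ)) ^ (l + 1) ≤ ((Algebra.norm ℤ x).natAbs : ℝ) := by
    exact_mod_cast h1
  rw [norm_int_eq] at h2
  have hij : j * p ^ l ≤ j * p ^ (l + L) :=
    Nat.mul_le_mul_left _ (Nat.pow_le_pow_right hp.pos (by omega))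
  have h3 : ∏ σ : F →+* ℂ, ‖emb σ x‖ ≤ ∏ σ : F →+* ℂ, (2 * n * Module.finrank F k *
      (if σ ∈ below F S then lam ^ (j * p ^ (l + L)) else 1)) :=
    Finset.prod_le_prod (fun _ _ => norm_nonneg _) fun σ _ => norm_diff_le h hij σ
  have h4 : ∏ σ : F →+* ℂ, ((2 : ℝ) * n * Module.finrank F k *
      (if σ ∈ below F S then lam ^ (j * p ^ (l + L)) else 1)) =
      (2 * n * Module.finrank F k : ℝ) ^ Module.finrank ℚ F *
        (lam ^ (j * p ^ (l + L))) ^ (below F S).card := by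
    rw [prod_mul_distrib, prod_const, card_univ, NumberField.Embeddings.card F ℂ]
    congr 1
    rw [prod_ite_mem, univ_inter, prod_const]
  have h5 : (below F S).card ≤ s := card_image_le.trans hS
  have h6 : (lam ^ (j * p ^ (l + L))) ^ (below F S).card ≤ lam ^ (s * (j * p ^ (l + L))) := by
    rw [← pow_mul, mul_comm s]
    exact pow_le_pow_right₀ h.one_le (Nat.mul_le_mul_left _ h5)
  have h7 : (0 : ℝ) ≤ (2 * n * Module.finrank F k : ℝ) ^ Module.finrank ℚ F := by positivity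
  have h8 := mul_le_mul_of_nonneg_left h6 h7
  rw [h4] at h3
  linarith

/-- the chain of equalities -/
theorem eq_chain {A : Matrix (Fin n) (Fin n) (𝓞 k)} {S : Finset (k →+* ℂ)} {lam : ℝ}
    (h : Bdd A S lam) {s : ℕ} (hS : S.card ≤ s) {p : ℕ} (hp : p.Prime)
    (T : Finset (Ideal (𝓞 F))) (hT : ∀ P ∈ T, P.IsPrime ∧ (p : 𝓞 F) ∈ P) {L : ℕ}
    (hL : ∀ P ∈ T, ∀ x : 𝓞 F, x ^ p ^ L - x ∈ P) {B R l : ℕ} (hB1 : 1 ≤ B)
    (hB : p ^ Module.finrank ℚ F ≤ (∏ P ∈ T, Ideal.absNorm P) ^ B)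
    (hl : 2 * (2 * n * Module.finrank F k) ^ B ≤ p ^ (l + 1)) {c : ℕ}
    (hc : ∀ c' < c, lam ^ (B * s * R * p ^ (l + c' * L + L)) < 2 ^ Module.finrank ℚ F) {j : ℕ}
    (hj : j ≤ R) :
    rs F A (j * p ^ (l + c * L)) = rs F A (j * p ^ l) := by
  induction c with
  | zero => rw [Nat.zero_mul, Nat.add_zero]
  | succ c ih =>
    rw [← ih fun c' hc' => hc c' (by omega)]
    have e1 : l + (c + 1) * L = l + c * L + L := by ring
    rw [e1]
    refine eq_rs h hS hp T hT hL j (l + c * L) ?_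
    have hlam := h.one_le
    set D := Module.finrank ℚ F with hD
    set M : ℝ := 2 * n * Module.finrank F k with hM
    set X : ℝ := ∏ P ∈ T, (Ideal.absNorm P : ℝ) with hX
    have hX0 : 0 ≤ X := prod_nonneg fun P _ => by positivity
    have hM0 : 0 ≤ M := by positivity
    have hB' : (p : ℝ) ^ D ≤ X ^ B := by
      rw [hX]
      exact_mod_cast hB
    have h3 : (lam ^ (s * (j * p ^ (l + c * L + L)))) ^ B < 2 ^ D := by
      rw [← pow_mul]
      refine lt_of_le_of_lt (pow_le_pow_right₀ hlam ?_) (hc c (by omega))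
      calc s * (j * p ^ (l + c * L + L)) * B = B * s * (j * p ^ (l + c * L + L)) := by ring
        _ ≤ B * s * (R * p ^ (l + c * L + L)) :=
            Nat.mul_le_mul_left _ (Nat.mul_le_mul_right _ hj)
        _ = B * s * R * p ^ (l + c * L + L) := by ring
    have h4 : (2 : ℝ) * M ^ B ≤ (p : ℝ) ^ (l + c * L + 1) := by
      have h5 : 2 * (2 * n * Module.finrank F k) ^ B ≤ p ^ (l + c * L + 1) :=
        hl.trans (Nat.pow_le_pow_right hp.pos (by nlinarith [Nat.zero_le (c * L)]))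
      rw [hM]
      exact_mod_cast h5
    refine lt_of_pow_lt_pow_left₀ B (by positivity) ?_
    rw [mul_pow]
    have h6 : (2 * M ^ B) ^ D ≤ (X ^ (l + c * L + 1)) ^ B := by
      calc (2 * M ^ B) ^ D ≤ ((p : ℝ) ^ (l + c * L + 1)) ^ D := pow_le_pow_left₀ (by positivity) h4 _
        _ = ((p : ℝ) ^ D) ^ (l + c * L + 1) := by rw [← pow_mul, ← pow_mul, mul_comm]
        _ ≤ (X ^ B) ^ (l + c * L + 1) := pow_le_pow_left₀ (by positivity) hB' _
        _ = (X ^ (l + c * L + 1)) ^ B := by rw [← pow_mul, ← pow_mul, mul_comm]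
    rcases hM0.eq_or_lt with h0 | h0
    · rw [← h0, zero_pow (Module.finrank_pos (R := ℚ) (M := F)).ne', zero_pow (by omega), zero_mul]
      have hX1 : 0 < X ^ B := lt_of_lt_of_le (by have := hp.pos; positivity) hB'
      have hX2 : 0 < X := by
        rcases hX0.eq_or_lt with h7 | h7
        · rw [← h7, zero_pow (by omega)] at hX1
          exact absurd hX1 (lt_irrefl _)
        · exact h7
      positivity
    · calc (M ^ D) ^ B * (lam ^ (s * (j * p ^ (l + c * L + L)))) ^ B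
          < (M ^ D) ^ B * 2 ^ D := mul_lt_mul_of_pos_left h3 (by positivity)
        _ = (2 * M ^ B) ^ D := by rw [mul_pow 2 (M ^ B) D, ← pow_mul, ← pow_mul, mul_comm D B]; ring
        _ ≤ (X ^ (l + c * L + 1)) ^ B := h6

end Pool.Agent.Q191.ML
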