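import Mathlib

/-!
# The choice of the exponents
-/

set_option autoImplicit false

namespace Pool.Agent.Q191.ML

open Finset Polynomial

/-- a power below an exponential -/
theorem exists_t0 (a G : ℕ) : ∃ t0 : ℕ, ∀ t : ℕ, t0 ≤ t → ((a : ℝ) * t) ^ (2 * G) < 2 ^ t := by
  have hlim := tendsto_pow_const_div_const_pow_of_one_lt (2 * G) (show (1 : ℝ) < 2 by norm_num)
  have hlim2 := hlim.const_mul ((a : ℝ) ^ (2 * G))
  rw [mul_zero] at hlim2
  have hev := hlim2.eventually_lt_const (show (0 : ℝ) < 1 by norm_num)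
  obtain ⟨t0, h⟩ := Filter.eventually_atTop.mp hev
  refine ⟨t0, fun t ht => ?_⟩
  have h1 := h t ht
  have h2 : (0 : ℝ) < 2 ^ t := by positivity
  rw [← mul_div_assoc, div_lt_one h2] at h1
  rwa [mul_pow]

/-- the small constant -/
theorem exists_eps (E : ℕ) (μ : ℝ) (hμ : 1 < μ) : ∃ ε : ℝ, 0 < ε ∧ (1 + ε) ^ E < μ := by
  have h1 : Filter.Tendsto (fun x : ℝ => (1 + x) ^ E) (nhdsWithin 0 (Set.Ioi 0)) (nhds 1) := by
    have h2 : Continuous fun x : ℝ => (1 + x) ^ E := by fun_prop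
    have h3 := h2.tendsto 0
    simp only [add_zero, one_pow] at h3
    exact h3.mono_left nhdsWithin_le_nhds
  have h4 := (h1.eventually (gt_mem_nhds hμ)).and self_mem_nhdsWithin
  obtain ⟨x, hx1, hx2⟩ := h4.exists
  exact ⟨x, hx2, hx1⟩

theorem num (n R s L p B C : ℕ) (hn : 1 ≤ n) (hs : 1 ≤ s) (hR : 1 ≤ R) (hL : 1 ≤ L) (hp : 2 ≤ p)
    (hB : 1 ≤ B) : ∃ ε : ℝ, 0 < ε ∧ ∃ t0 : ℕ, ∀ (m D t : ℕ) (lam : ℝ), 1 < lam → lam ≤ 1 + ε →
      1 ≤ m → D ≤ B * t → m ^ B ≤ C * D → t0 ≤ t →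
      ∃ l c : ℕ, 2 * (2 * n * m) ^ B ≤ p ^ (l + 1) ∧
        (∀ c' < c, lam ^ (s * R * p ^ (l + c' * L + L)) < 2 ^ t) ∧
        4 * n * m * lam ^ (R * p ^ l) < lam ^ (p ^ (l + c * L)) := by
  set G : ℕ := s * R * p ^ L with hG
  have hG1 : 1 ≤ G := Nat.mul_pos (Nat.mul_pos hs hR) (Nat.pow_pos (by omega))
  set w : ℕ := 2 * (2 * n) ^ B * (C * B) with hw
  obtain ⟨ε, hε, hεb⟩ := exists_eps (2 * (R * G * w)) 2 (by norm_num)
  obtain ⟨t0, ht0⟩ := exists_t0 (4 * n * (C * B)) G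
  refine ⟨ε, hε, t0, fun m D t lam hlam hlam2 hm hD hmB ht => ?_⟩
  have hlam0 : 0 < lam := by linarith
  have hmB' : m ^ B ≤ C * B * t := by
    calc m ^ B ≤ C * D := hmB
      _ ≤ C * (B * t) := Nat.mul_le_mul_left _ hD
      _ = C * B * t := by ring
  have hmle : m ≤ C * B * t := (Nat.le_self_pow (by omega) m).trans hmB'
  -- the first exponent
  have hex : ∃ l, 2 * (2 * n * m) ^ B ≤ p ^ (l + 1) := by
    refine ⟨2 * (2 * n * m) ^ B, ?_⟩
    have h1 : 2 * (2 * n * m) ^ B < p ^ (2 * (2 * n * m) ^ B) := Nat.lt_pow_self (by omega)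
    exact h1.le.trans (Nat.pow_le_pow_right (by omega) (by omega))
  classical
  set l := Nat.find hex with hl
  have hl1 : 2 * (2 * n * m) ^ B ≤ p ^ (l + 1) := Nat.find_spec hex
  have hl2 : p ^ l ≤ 2 * (2 * n * m) ^ B := by
    rcases Nat.eq_zero_or_pos l with h0 | h0
    · rw [h0, pow_zero]
      have : 0 < 2 * (2 * n * m) ^ B := by positivity
      omega
    · have h1 := Nat.find_min hex (m := l - 1) (by omega)
      rw [not_le, show l - 1 + 1 = l by omega] at h1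
      exact h1.le
  have hl3 : p ^ l ≤ w * t := by
    refine hl2.trans ?_
    calc 2 * (2 * n * m) ^ B = 2 * (2 * n) ^ B * m ^ B := by rw [mul_pow (2 * n) m]; ring
      _ ≤ 2 * (2 * n) ^ B * (C * B * t) := Nat.mul_le_mul_left _ hmB'
      _ = w * t := by rw [hw]; ring
  -- the number of steps
  have hex2 : ∃ c, ¬ lam ^ (s * R * p ^ (l + c * L + L)) < 2 ^ t := by
    obtain ⟨N, hN⟩ := pow_unbounded_of_one_lt ((2 : ℝ) ^ t) hlam
    refine ⟨N, not_lt.mpr (hN.le.trans (pow_le_pow_right₀ hlam.le ?_))⟩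
    have h1 : N < p ^ N := Nat.lt_pow_self (by omega)
    have h2 : p ^ N ≤ p ^ (l + N * L + L) := Nat.pow_le_pow_right (by omega) (by nlinarith)
    have h3 : 1 * p ^ (l + N * L + L) ≤ s * R * p ^ (l + N * L + L) :=
      Nat.mul_le_mul_right _ (Nat.mul_pos hs hR)
    omega
  set c := Nat.find hex2 with hc
  have hc1 := Nat.find_spec hex2
  rw [← hc, not_lt] at hc1
  refine ⟨l, c, hl1, fun c' hc' => ?_, ?_⟩
  · have := Nat.find_min hex2 hc'
    rwa [not_not] at this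
  · have hG0 : G ≠ 0 := by omega
    refine lt_of_pow_lt_pow_left₀ G (by positivity) ?_
    have e1 : (lam ^ (p ^ (l + c * L))) ^ G = lam ^ (s * R * p ^ (l + c * L + L)) := by
      rw [← pow_mul]
      congr 1
      rw [hG, pow_add p (l + c * L) L]
      ring
    rw [e1]
    refine lt_of_lt_of_le ?_ hc1
    have h2t : (0 : ℝ) < 2 ^ t := by positivity
    refine lt_of_pow_lt_pow_left₀ 2 h2t.le ?_
    rw [mul_pow, mul_pow, sq ((2 : ℝ) ^ t)]
    have hx : ((4 : ℝ) * n * m) ^ (G * 2) < 2 ^ t := by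
      rw [mul_comm G 2]
      refine lt_of_le_of_lt ?_ (ht0 t ht)
      refine pow_le_pow_left₀ (by positivity) ?_ _
      have : (m : ℝ) ≤ C * B * t := by exact_mod_cast hmle
      push_cast
      calc (4 : ℝ) * n * m ≤ 4 * n * (C * B * t) := mul_le_mul_of_nonneg_left this (by positivity)
        _ = 4 * n * (C * B) * t := by ring
    have hy : lam ^ (R * p ^ l * G * 2) ≤ 2 ^ t := by
      have h5 : lam ^ (R * p ^ l * G * 2) ≤ ((1 + ε) ^ (2 * (R * G * w))) ^ t := by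
        rw [← pow_mul]
        calc lam ^ (R * p ^ l * G * 2) ≤ (1 + ε) ^ (R * p ^ l * G * 2) :=
              pow_le_pow_left₀ hlam0.le hlam2 _
          _ ≤ (1 + ε) ^ (2 * (R * G * w) * t) := by
              refine pow_le_pow_right₀ (by linarith) ?_
              calc R * p ^ l * G * 2 = p ^ l * (R * G * 2) := by ring
                _ ≤ w * t * (R * G * 2) := Nat.mul_le_mul_right _ hl3
                _ = 2 * (R * G * w) * t := by ring
      exact h5.trans (pow_le_pow_left₀ (by positivity) hεb.le _)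
    rw [← pow_mul, ← pow_mul, ← pow_mul, ← mul_assoc (R * p ^ l) G 2]
    have hy0 : (0 : ℝ) < lam ^ (R * p ^ l * G * 2) := by positivity
    calc ((4 : ℝ) * n * m) ^ (G * 2) * lam ^ (R * p ^ l * G * 2)
        < 2 ^ t * lam ^ (R * p ^ l * G * 2) := mul_lt_mul_of_pos_right hx hy0
      _ ≤ 2 ^ t * 2 ^ t := mul_le_mul_of_nonneg_left hy h2t.le

end Pool.Agent.Q191.ML
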