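import Pool.Agent.Q191.ML.Equ
import Pool.Agent.Q191.ML.Num

/-!
# The gap
-/

set_option autoImplicit false

namespace Pool.Agent.Q191.ML

open Finset NumberField Polynomial
open Pool.Agent.Q262.AB (fib mem_fib trace_fib card_fib exists_coord)
open Pool.Agent.Y820.MG (eigs eigs_spec isRoot_eigs exists_den fden_monic fden fden_eq
  fden_mahler_le)
open Pool.Agent.H225R3.Marg (emb norm_int_eq nilp_of_roots)

variable {k F : Type} [Field k] [NumberField k] [Field F] [NumberField F] [Algebra F k] {n : ℕ}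

open Classical in
/-- the upper bound for the largest eigenvalue -/
theorem top_le {A : Matrix (Fin n) (Fin n) (𝓞 k)} {S : Finset (k →+* ℂ)} {lam : ℝ}
    (h : Bdd A S lam) (hn : 1 ≤ n) {s : ℕ} (hS : S.card ≤ s) {a b : ℕ}
    (heq : ∀ j, j ≤ s * n → rs F A (j * a) = rs F A (j * b)) (x0 : (k →+* ℂ) × Fin n)
    (hx0 : ‖eigs A x0‖ = lam) (hlam : 1 < lam) :
    lam ^ a ≤ 4 * n * Module.finrank F k * lam ^ (s * n * b) := by
  set φ0 : k →ₐ[ℚ] ℂ := x0.1.toRatAlgHom with hφ0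
  set v0 : F →ₐ[ℚ] ℂ := φ0.comp (IsScalarTower.toAlgHom ℚ F k) with hv0
  set I : Finset ((k →ₐ[ℚ] ℂ) × Fin n) := fib (L := k) v0 ×ˢ (univ : Finset (Fin n)) with hI
  set e : (k →ₐ[ℚ] ℂ) × Fin n → ℂ := fun x => eigs A ((x.1 : k →+* ℂ), x.2) with he
  set O := I.filter fun x => 1 < ‖e x‖ with hO
  have hm : (1 : ℝ) ≤ Module.finrank F k := by
    exact_mod_cast (Module.finrank_pos : 0 < Module.finrank F k)
  have hn' : (1 : ℝ) ≤ n := by exact_mod_cast hn
  have hx0I : (φ0, x0.2) ∈ I := by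
    rw [hI, mem_product]
    exact ⟨mem_fib.2 fun a => rfl, mem_univ _⟩
  have hφσ : ((φ0 : k →+* ℂ)) = x0.1 := by
    ext a
    rfl
  have hex0 : ‖e (φ0, x0.2)‖ = lam := by
    rw [he]
    simp only
    rw [hφσ]
    exact hx0
  have hx0O : (φ0, x0.2) ∈ O := by
    rw [hO, mem_filter]
    exact ⟨hx0I, by rw [hex0]; exact hlam⟩
  have hcard : O.card ≤ s * n := by
    have h1 : O.card ≤ (S ×ˢ (univ : Finset (Fin n))).card := by
      refine card_le_card_of_injOn (fun x => ((x.1 : k →+* ℂ), x.2)) ?_ ?_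
      · intro x hx
        rw [mem_coe, hO, mem_filter] at hx
        rw [mem_coe, mem_product]
        refine ⟨?_, mem_univ _⟩
        by_contra hxS
        have := h.out _ hxS x.2
        exact absurd hx.2 (not_lt.mpr this)
      · rintro ⟨φ, i⟩ _ ⟨ψ, j⟩ _ hij
        simp only [Prod.mk.injEq] at hij
        ext1
        · apply AlgHom.ext
          intro a
          exact congrArg (fun g : k →+* ℂ => g a) hij.1
        · exact hij.2
    rw [card_product, card_univ, Fintype.card_fin] at h1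
    exact h1.trans (Nat.mul_le_mul_right _ hS)
  have hIcard : (I.card : ℝ) = n * Module.finrank F k := by
    rw [hI, card_product, card_fib, card_univ, Fintype.card_fin]
    push_cast
    ring
  set K : ℝ := 2 * n * Module.finrank F k * lam ^ (s * n * b) with hK
  have hl1 : (1 : ℝ) ≤ lam ^ (s * n * b) := one_le_pow₀ hlam.le
  have hnm : (1 : ℝ) ≤ n * Module.finrank F k := one_le_mul_of_one_le_of_one_le hn' hm
  have hK1 : 1 ≤ K := by
    rw [hK]
    nlinarith
  have hps : ∀ j, 1 ≤ j → j ≤ s * n → ‖∑ i : O, (e i.1 ^ a) ^ j‖ ≤ K := by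
    intro j _ hj
    have h1 : ∑ i : O, (e i.1 ^ a) ^ j = ∑ x ∈ O, (e x ^ a) ^ j :=
      Finset.sum_coe_sort O fun x => (e x ^ a) ^ j
    have h2 : v0 (rs F A (j * a)) = ∑ x ∈ I, (e x ^ a) ^ j := by
      rw [apply_rs]
      refine sum_congr rfl fun x _ => ?_
      rw [← pow_mul, mul_comm]
    have h3 : ∑ x ∈ O, (e x ^ a) ^ j + ∑ x ∈ I.filter (fun x => ¬ 1 < ‖e x‖), (e x ^ a) ^ j =
        v0 (rs F A (j * a)) := by
      rw [h2]
      exact sum_filter_add_sum_filter_not I _ _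
    have h4 : ‖∑ x ∈ I.filter (fun x => ¬ 1 < ‖e x‖), (e x ^ a) ^ j‖ ≤
        n * Module.finrank F k := by
      refine (norm_sum_le _ _).trans ?_
      have h5 : ∀ x ∈ I.filter (fun x => ¬ 1 < ‖e x‖), ‖(e x ^ a) ^ j‖ ≤ 1 := by
        intro x hx
        rw [mem_filter, not_lt] at hx
        rw [norm_pow, norm_pow]
        exact pow_le_one₀ (by positivity) (pow_le_one₀ (norm_nonneg _) hx.2)
      refine (sum_le_sum h5).trans ?_
      rw [sum_const, nsmul_eq_mul, mul_one, ← hIcard]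
      exact_mod_cast card_filter_le _ _
    have h6 : ‖v0 (rs F A (j * a))‖ ≤ n * Module.finrank F k * lam ^ (s * n * b) := by
      rw [heq j hj]
      refine (norm_rs_le h v0 (j * b)).trans ?_
      refine mul_le_mul_of_nonneg_left ?_ (by positivity)
      split_ifs
      · exact pow_le_pow_right₀ hlam.le (Nat.mul_le_mul_right _ hj)
      · exact hl1
    rw [h1]
    have h7 : ∑ x ∈ O, (e x ^ a) ^ j = v0 (rs F A (j * a)) -
        ∑ x ∈ I.filter (fun x => ¬ 1 < ‖e x‖), (e x ^ a) ^ j := by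
      rw [← h3]
      ring
    rw [h7]
    refine (norm_sub_le _ _).trans ?_
    have h8 : (n : ℝ) * Module.finrank F k ≤ n * Module.finrank F k * lam ^ (s * n * b) :=
      le_mul_of_one_le_right (by positivity) hl1
    rw [hK]
    linarith
  have hfin := le_of_psum (fun i : O => e i.1 ^ a) K hK1 (s * n)
    (by rw [Fintype.card_coe]; exact hcard) hps ⟨(φ0, x0.2), hx0O⟩
  simp only at hfin
  rw [norm_pow, hex0, hK] at hfin
  linarith

/-- not all the eigenvalues are in the unit disc -/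
theorem fin_part (A : Matrix (Fin n) (Fin n) (𝓞 k)) (hA : IsUnit A)
    (hM : ∀ P : ℤ[X], P.map (Int.castRingHom ℂ) = fden (eigs A) →
      (P.map (Int.castRingHom ℂ)).mahlerMeasure = 1)
    (hN : ∀ N : ℕ, 0 < N → ¬ IsNilpotent (A ^ N - 1)) : False := by
  classical
  obtain ⟨P, hP⟩ := exists_den A
  have hP' : P.map (Int.castRingHom ℂ) = fden (eigs A) := hP
  have hone := hM P hP'
  have hP0 : P ≠ 0 := by
    rintro rfl
    have := (fden_monic (eigs A)).ne_zero
    rw [← hP'] at this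
    simp at this
  obtain ⟨σ⟩ : Nonempty (k →+* ℂ) := inferInstance
  have hroots : ∀ l : ℂ, (A.charpoly.map (emb σ)).IsRoot l → ∃ N : ℕ, 0 < N ∧ l ^ N = 1 := by
    intro l hl
    have hl2 : ((emb σ).mapMatrix A).charpoly.IsRoot l := by
      rw [← Matrix.charpoly_map] at hl
      exact hl
    have hl0 : l ≠ 0 := by
      rintro rfl
      rw [← Matrix.mem_spectrum_iff_isRoot_charpoly, spectrum.zero_mem_iff] at hl2
      exact hl2 (hA.map _)
    refine pow_eq_one_of_mahlerMeasure_eq_one (p := P) hone hl0 ?_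
    rw [mem_aroots]
    refine ⟨hP0, ?_⟩
    have h2 : (P.map (Int.castRingHom ℂ)).eval l = 0 := by
      rw [hP']
      unfold fden
      rw [Fintype.prod_prod_type, eval_prod]
      refine Finset.prod_eq_zero (Finset.mem_univ σ) ?_
      rw [← eigs_spec A σ]
      exact hl2
    rw [eval_map] at h2
    rw [aeval_def]
    exact h2
  obtain ⟨N, hN0, hnil⟩ := nilp_of_roots (emb σ)
    (σ.injective.comp (FaithfulSMul.algebraMap_injective (𝓞 k) k)) A hroots
  exact hN N hN0 hnil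

theorem exists_lower (s : Finset ℝ) (h : ∀ x ∈ s, 1 < x) : ∃ μ : ℝ, 1 < μ ∧ ∀ x ∈ s, μ ≤ x := by
  induction s using Finset.induction_on with
  | empty => exact ⟨2, by norm_num, by simp⟩
  | insert a s _ ih =>
    obtain ⟨μ, h1, h2⟩ := ih fun x hx => h x (mem_insert_of_mem hx)
    refine ⟨min μ a, lt_min h1 (h a (mem_insert_self _ _)), fun x hx => ?_⟩
    rcases mem_insert.1 hx with rfl | hx
    · exact min_le_right _ _
    · exact (min_le_left _ _).trans (h2 x hx)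

/-- Northcott -/
theorem north (d : ℕ) : ∃ μ : ℝ, 1 < μ ∧ ∀ P : ℤ[X], P.natDegree ≤ d →
    (P.map (Int.castRingHom ℂ)).mahlerMeasure < μ → (P.map (Int.castRingHom ℂ)).mahlerMeasure ≤ 1 := by
  classical
  have hfin := finite_mahlerMeasure_le d 2
  obtain ⟨μ, hμ, h⟩ := exists_lower
    ((hfin.toFinset.image fun P : ℤ[X] => (P.map (Int.castRingHom ℂ)).mahlerMeasure).filter
      fun x => 1 < x) fun x hx => (mem_filter.1 hx).2
  refine ⟨min μ 2, lt_min hμ (by norm_num), fun P hd hP => ?_⟩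
  by_contra hcon
  push Not at hcon
  have h1 : (P.map (Int.castRingHom ℂ)).mahlerMeasure < 2 := hP.trans_le (min_le_right _ _)
  have h2 := h (P.map (Int.castRingHom ℂ)).mahlerMeasure (by
    rw [mem_filter, mem_image]
    refine ⟨⟨P, ?_, rfl⟩, hcon⟩
    rw [Set.Finite.mem_toFinset]
    exact ⟨hd, by exact_mod_cast h1.le⟩)
  exact absurd (hP.trans_le (min_le_left _ _)) (not_lt.mpr h2)


/-- **The gap.** -/
theorem gap (n s p Q B C : ℕ) (hp : p.Prime) (hB : 1 ≤ B) : ∃ ε : ℝ, 0 < ε ∧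
    ∀ (k : Type) [Field k] [NumberField k] (F : Type) [Field F] [NumberField F] [Algebra F k]
      (S : Finset (k →+* ℂ)) (T : Finset (Ideal (𝓞 F))) (A : Matrix (Fin n) (Fin n) (𝓞 k)),
      (∀ P ∈ T, P.IsPrime ∧ (p : 𝓞 F) ∈ P ∧ Ideal.absNorm P ≤ Q) →
      p ^ Module.finrank ℚ F ≤ (∏ P ∈ T, Ideal.absNorm P) ^ B →
      (Module.finrank F k) ^ B ≤ C * Module.finrank ℚ F →
      S.card ≤ s → IsUnit A →
      (∀ σ : k →+* ℂ, σ ∉ S → ∀ l : ℂ, ((emb σ).mapMatrix A).charpoly.IsRoot l → ‖l‖ ≤ 1) →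
      (∀ N : ℕ, 0 < N → ¬ IsNilpotent (A ^ N - 1)) →
      ∃ σ ∈ S, ∃ l : ℂ, ((emb σ).mapMatrix A).charpoly.IsRoot l ∧ ε ≤ ‖l - 1‖ := by
  classical
  rcases Nat.eq_zero_or_pos n with hn0 | hn
  · subst hn0
    refine ⟨1, one_pos, fun k _ _ F _ _ _ S T A _ _ _ _ _ _ hN => ?_⟩
    exact absurd ⟨1, Subsingleton.elim _ _⟩ (hN 1 one_pos)
  obtain ⟨ε1, hε1, t0, hnum⟩ := num n ((s + 1) * n) (B * (s + 1)) Q.factorial p B C hn
    (Nat.mul_pos hB (by omega)) (Nat.mul_pos (by omega) hn) (Nat.factorial_pos _) hp.two_le hB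
  obtain ⟨μ, hμ, hnorth⟩ := north (n * (t0 * (C * t0)))
  obtain ⟨ε2, hε2, hε2'⟩ := exists_eps (s * n) μ hμ
  refine ⟨min ε1 ε2, lt_min hε1 hε2, fun k _ _ F _ _ _ S T A hT hD hm hS hA hout hN => ?_⟩
  by_contra hcon
  push Not at hcon
  set ε := min ε1 ε2 with hε
  have hε0 : 0 < ε := lt_min hε1 hε2
  have hin : ∀ σ ∈ S, ∀ l : ℂ, ((emb σ).mapMatrix A).charpoly.IsRoot l → ‖l‖ ≤ 1 + ε := by
    intro σ hσ l hl
    have h1 := hcon σ hσ l hl
    have h2 : ‖l‖ ≤ ‖l - 1‖ + ‖(1 : ℂ)‖ := by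
      have := norm_add_le (l - 1) 1
      rwa [sub_add_cancel] at this
    rw [norm_one] at h2
    linarith
  have hxin : ∀ x : (k →+* ℂ) × Fin n, ‖eigs A x‖ ≤ 1 + ε := by
    rintro ⟨σ, i⟩
    by_cases hσ : σ ∈ S
    · exact hin σ hσ _ (isRoot_eigs A (σ, i))
    · have := hout σ hσ _ (isRoot_eigs A (σ, i))
      linarith
  obtain ⟨σ⟩ : Nonempty (k →+* ℂ) := inferInstance
  obtain ⟨x0, -, hx0⟩ := exists_max_image (univ : Finset ((k →+* ℂ) × Fin n))
    (fun x => ‖eigs A x‖) ⟨(σ, ⟨0, hn⟩), mem_univ _⟩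
  have hle1 : ‖eigs A x0‖ ≤ 1 := by
    by_contra hlam
    push Not at hlam
    have hb : Bdd A S ‖eigs A x0‖ :=
      ⟨hlam.le, fun σ hσ i => hout σ hσ _ (isRoot_eigs A (σ, i)), fun x => hx0 x (mem_univ _)⟩
    rcases Nat.lt_or_ge (Module.finrank ℚ F) t0 with ht | ht
    · -- bounded degree
      refine fin_part A hA (fun P hP => ?_) hN
      have hP0 : P ≠ 0 := by
        rintro rfl
        have := (fden_monic (eigs A)).ne_zero
        rw [← hP] at this
        simp at this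
      refine le_antisymm (hnorth P ?_ ?_) (Pool.Agent.Y820.LB.one_le_m1 hP0)
      · have h1 : P.natDegree = (P.map (Int.castRingHom ℂ)).natDegree :=
          (natDegree_map_eq_of_injective Int.cast_injective P).symm
        have h2 : (fden (eigs A)).natDegree = Fintype.card ((k →+* ℂ) × Fin n) := by
          unfold fden
          rw [natDegree_prod_of_monic _ _ fun _ _ => monic_X_sub_C _]
          simp
        rw [h1, hP, h2, Fintype.card_prod, Fintype.card_fin, NumberField.Embeddings.card k ℂ,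
          mul_comm]
        refine Nat.mul_le_mul_left _ ?_
        rw [← Module.finrank_mul_finrank ℚ F k]
        refine Nat.mul_le_mul ht.le ?_
        exact (Nat.le_self_pow (by omega) _).trans (hm.trans (Nat.mul_le_mul_left _ ht.le))
      · rw [hP]
        refine lt_of_le_of_lt (fden_mahler_le (eigs A) (S ×ˢ Finset.univ) (1 + ε2) (by linarith)
          (fun j hj => ?_) fun j hj => ?_) ?_
        · exact hout j.1 (fun h => hj (Finset.mem_product.mpr ⟨h, Finset.mem_univ _⟩)) _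
            (isRoot_eigs A j)
        · have := hxin j
          have h5 : ε ≤ ε2 := min_le_right _ _
          linarith
        · refine lt_of_le_of_lt (pow_le_pow_right₀ (by linarith) ?_) hε2'
          rw [Finset.card_product, Finset.card_univ, Fintype.card_fin]
          exact Nat.mul_le_mul_right n hS
    · obtain ⟨l, c, hl, hc, hfin⟩ := hnum (Module.finrank F k) (Module.finrank ℚ F)
        (Module.finrank ℚ F) ‖eigs A x0‖ hlam ((hxin x0).trans (by
          have h5 : ε ≤ ε1 := min_le_left _ _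
          linarith)) Module.finrank_pos (Nat.le_mul_of_pos_left _ hB) hm ht
      have hS' : S.card ≤ s + 1 := by omega
      have hL : ∀ P ∈ T, ∀ x : 𝓞 F, x ^ p ^ Q.factorial - x ∈ P := fun P hP x =>
        frob_mem p hp Q P (hT P hP).1 (hT P hP).2.1 (hT P hP).2.2 x
      have h1 := top_le hb hn hS' (a := p ^ (l + c * Q.factorial)) (b := p ^ l) (F := F)
        (fun j hj => eq_chain hb hS' hp T (fun P hP => ⟨(hT P hP).1, (hT P hP).2.1⟩) hL hB hD hl hc
          hj) x0 rfl hlam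
      linarith
  -- all eigenvalues are in the unit disc
  refine fin_part A hA (fun P hP => ?_) hN
  have hP0 : P ≠ 0 := by
    rintro rfl
    have := (fden_monic (eigs A)).ne_zero
    rw [← hP] at this
    simp at this
  refine le_antisymm ?_ (Pool.Agent.Y820.LB.one_le_m1 hP0)
  rw [hP]
  refine (fden_mahler_le (eigs A) ∅ 1 le_rfl (fun j _ => (hx0 j (mem_univ _)).trans hle1)
    (by simp)).trans ?_
  simp

/-- The gap, uniformly in the prime number. -/
theorem gap' (n s Q B C : ℕ) : ∃ ε : ℝ, 0 < ε ∧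
    ∀ (k : Type) [Field k] [NumberField k] (p : ℕ) (F : Type) [Field F] [NumberField F]
      [Algebra F k] (S : Finset (k →+* ℂ)) (T : Finset (Ideal (𝓞 F)))
      (A : Matrix (Fin n) (Fin n) (𝓞 k)), p.Prime →
      (∀ P ∈ T, P.IsPrime ∧ (p : 𝓞 F) ∈ P ∧ Ideal.absNorm P ≤ Q) →
      p ^ Module.finrank ℚ F ≤ (∏ P ∈ T, Ideal.absNorm P) ^ B →
      (Module.finrank F k) ^ B ≤ C * Module.finrank ℚ F →
      S.card ≤ s → IsUnit A →
      (∀ σ : k →+* ℂ, σ ∉ S → ∀ l : ℂ, ((emb σ).mapMatrix A).charpoly.IsRoot l → ‖l‖ ≤ 1) →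
      (∀ N : ℕ, 0 < N → ¬ IsNilpotent (A ^ N - 1)) →
      ∃ σ ∈ S, ∃ l : ℂ, ((emb σ).mapMatrix A).charpoly.IsRoot l ∧ ε ≤ ‖l - 1‖ := by
  classical
  have hpos : ∀ p : ℕ, ∃ ε : ℝ, 0 < ε ∧ (p.Prime → 1 ≤ B →
    ∀ (k : Type) [Field k] [NumberField k] (F : Type) [Field F] [NumberField F] [Algebra F k]
      (S : Finset (k →+* ℂ)) (T : Finset (Ideal (𝓞 F))) (A : Matrix (Fin n) (Fin n) (𝓞 k)),
      (∀ P ∈ T, P.IsPrime ∧ (p : 𝓞 F) ∈ P ∧ Ideal.absNorm P ≤ Q) →
      p ^ Module.finrank ℚ F ≤ (∏ P ∈ T, Ideal.absNorm P) ^ B →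
      (Module.finrank F k) ^ B ≤ C * Module.finrank ℚ F →
      S.card ≤ s → IsUnit A →
      (∀ σ : k →+* ℂ, σ ∉ S → ∀ l : ℂ, ((emb σ).mapMatrix A).charpoly.IsRoot l → ‖l‖ ≤ 1) →
      (∀ N : ℕ, 0 < N → ¬ IsNilpotent (A ^ N - 1)) →
      ∃ σ ∈ S, ∃ l : ℂ, ((emb σ).mapMatrix A).charpoly.IsRoot l ∧ ε ≤ ‖l - 1‖) := by
    intro p
    by_cases hp : p.Prime ∧ 1 ≤ B
    · obtain ⟨ε, hε, h⟩ := gap n s p Q B C hp.1 hp.2
      exact ⟨ε, hε, fun _ _ => h⟩
    · exact ⟨1, one_pos, fun h1 h2 => absurd ⟨h1, h2⟩ hp⟩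
  choose ε hε h using hpos
  obtain ⟨δ, hδ, hle⟩ : ∃ δ : ℝ, 0 < δ ∧ ∀ p ∈ range (Q + 1), δ ≤ ε p := by
    refine ⟨(range (Q + 1)).inf' ⟨0, by simp⟩ ε, ?_, fun p hp => Finset.inf'_le _ hp⟩
    rw [Finset.lt_inf'_iff]
    exact fun p _ => hε p
  refine ⟨δ, hδ, fun k _ _ p F _ _ _ S T A hp hT hD hm hS hA hout hN => ?_⟩
  have hD0 : 0 < Module.finrank ℚ F := Module.finrank_pos
  have h1D : 1 < p ^ Module.finrank ℚ F := Nat.one_lt_pow hD0.ne' hp.one_lt
  have hB : 1 ≤ B := by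
    by_contra hB
    rw [show B = 0 by omega, pow_zero] at hD
    omega
  have hT0 : T.Nonempty := by
    by_contra hT0
    rw [not_nonempty_iff_eq_empty] at hT0
    rw [hT0, prod_empty, one_pow] at hD
    omega
  obtain ⟨P, hP⟩ := hT0
  have hpQ : p ≤ Q := (le_absNorm p hp P (hT P hP).1 (hT P hP).2.1).trans (hT P hP).2.2
  obtain ⟨σ, hσ, l, hl, hle'⟩ := h p hp hB k F S T A hT hD hm hS hA hout hN
  exact ⟨σ, hσ, l, hl, (hle p (mem_range.2 (by omega))).trans hle'⟩

end Pool.Agent.Q191.ML
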