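import Mathlib

/-!
# Congruences modulo powers of prime ideals
-/

set_option autoImplicit false

namespace Pool.Agent.Q191.ML

open Finset NumberField

section

variable {R : Type*} [CommRing R]

theorem pow_sub_pow_mem (P : Ideal R) {p : ℕ} (hp : (p : R) ∈ P) {a b : R} {r : ℕ}
    (h : a - b ∈ P ^ (r + 1)) : a ^ p - b ^ p ∈ P ^ (r + 2) := by
  rw [← geom_sum₂_mul, pow_succ' P (r + 1)]
  refine Ideal.mul_mem_mul ?_ h
  have h1 : a - b ∈ P := Ideal.pow_le_self (by omega) h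
  rw [← Ideal.Quotient.eq_zero_iff_mem] at hp ⊢
  have h2 : Ideal.Quotient.mk P a = Ideal.Quotient.mk P b := by
    rw [← sub_eq_zero, ← map_sub]
    exact Ideal.Quotient.eq_zero_iff_mem.mpr h1
  rw [map_sum]
  simp only [map_mul, map_pow, h2]
  have h3 : ∀ i ∈ range p, Ideal.Quotient.mk P b ^ i * Ideal.Quotient.mk P b ^ (p - 1 - i) =
      Ideal.Quotient.mk P b ^ (p - 1) := by
    intro i hi
    rw [mem_range] at hi
    rw [← pow_add]
    congr 1
    omega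
  rw [sum_congr rfl h3, sum_const, card_range, nsmul_eq_mul]
  rw [map_natCast] at hp
  rw [hp, zero_mul]

theorem pow_sub_pow_mem' (P : Ideal R) {p : ℕ} (hp : (p : R) ∈ P) {a b : R}
    (h : a - b ∈ P) (r : ℕ) : a ^ p ^ r - b ^ p ^ r ∈ P ^ (r + 1) := by
  induction r with
  | zero => simpa using h
  | succ r ih =>
    rw [pow_succ p, pow_mul, pow_mul]
    exact pow_sub_pow_mem P hp ih

/-- the congruence between the ghost components -/
theorem ghost_mem (P : Ideal R) {p : ℕ} (hp : (p : R) ∈ P) (L : ℕ) (c : ℕ → R)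
    (hL : ∀ x : R, x ^ p ^ L - x ∈ P) (l : ℕ) :
    (∑ j ∈ range (l + L + 1), (p : R) ^ j * c j ^ p ^ (l + L - j)) -
      ∑ j ∈ range (l + 1), (p : R) ^ j * c j ^ p ^ (l - j) ∈ P ^ (l + 1) := by
  have hpj : ∀ j, (p : R) ^ j ∈ P ^ j := fun j => Ideal.pow_mem_pow hp j
  have e1 : range (l + L + 1) = range (l + 1 + L) := by
    congr 1
    omega
  rw [e1, sum_range_add, add_sub_right_comm, ← sum_sub_distrib]
  refine Ideal.add_mem _ (Ideal.sum_mem _ fun j hj => ?_) (Ideal.sum_mem _ fun j hj => ?_)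
  · rw [mem_range] at hj
    rw [← mul_sub]
    have h1 : l + L - j = L + (l - j) := by omega
    have h2 : l + 1 = j + (l - j + 1) := by omega
    rw [h1, pow_add p L, pow_mul, h2, pow_add P]
    exact Ideal.mul_mem_mul (hpj j) (pow_sub_pow_mem' P hp (hL (c j)) (l - j))
  · rw [pow_add (p : R), mul_assoc]
    exact Ideal.mul_mem_right _ _ (hpj (l + 1))

end

theorem charP_of {K : Type*} [Field K] {p : ℕ} (hp : p.Prime) (h0 : (p : K) = 0) : CharP K p := by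
  obtain ⟨q, hq⟩ := CharP.exists K
  have h1 : q ∣ p := (CharP.cast_eq_zero_iff K q p).1 h0
  rcases (Nat.dvd_prime hp).1 h1 with h2 | h2
  · exact absurd h2 (CharP.char_ne_one K q)
  · rw [← h2]
    exact hq

section

variable {F : Type} [Field F] [NumberField F]

theorem frob_mem (p : ℕ) (hp : p.Prime) (Q : ℕ) (P : Ideal (𝓞 F)) (hP : P.IsPrime)
    (hpP : (p : 𝓞 F) ∈ P) (hQ : Ideal.absNorm P ≤ Q) (x : 𝓞 F) :
    x ^ p ^ Q.factorial - x ∈ P := by
  have hb : P ≠ ⊥ := by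
    rintro rfl
    rw [Ideal.mem_bot] at hpP
    exact hp.ne_zero (by exact_mod_cast hpP)
  have hm : P.IsMaximal := hP.isMaximal hb
  let _ : Field (𝓞 F ⧸ P) := Ideal.Quotient.field P
  have _ : Finite (𝓞 F ⧸ P) := Ideal.finiteQuotientOfFreeOfNeBot P hb
  let _ : Fintype (𝓞 F ⧸ P) := Fintype.ofFinite _
  have _ : Fact p.Prime := ⟨hp⟩
  have hp0 : ((p : ℕ) : 𝓞 F ⧸ P) = 0 := by
    rw [← map_natCast (Ideal.Quotient.mk P)]
    exact Ideal.Quotient.eq_zero_iff_mem.mpr hpP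
  have _ : CharP (𝓞 F ⧸ P) p := charP_of hp hp0
  obtain ⟨a, -, ha⟩ := FiniteField.card (𝓞 F ⧸ P) p
  have hcard : p ^ (a : ℕ) ≤ Q := by
    rw [← ha, ← Nat.card_eq_fintype_card]
    rw [Ideal.absNorm_apply, Submodule.cardQuot_apply] at hQ
    exact hQ
  have haQ : (a : ℕ) ≤ Q := by
    have : (a : ℕ) < p ^ (a : ℕ) := Nat.lt_pow_self hp.one_lt
    omega
  obtain ⟨b, hb'⟩ := Nat.dvd_factorial a.pos haQ
  rw [← Ideal.Quotient.eq_zero_iff_mem, map_sub, map_pow, hb', pow_mul, ← ha,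
    FiniteField.pow_card_pow, sub_self]

theorem le_absNorm (p : ℕ) (hp : p.Prime) (P : Ideal (𝓞 F)) (hP : P.IsPrime)
    (hpP : (p : 𝓞 F) ∈ P) : p ≤ Ideal.absNorm P := by
  have hb : P ≠ ⊥ := by
    rintro rfl
    rw [Ideal.mem_bot] at hpP
    exact hp.ne_zero (by exact_mod_cast hpP)
  have hm : P.IsMaximal := hP.isMaximal hb
  let _ : Field (𝓞 F ⧸ P) := Ideal.Quotient.field P
  have _ : Finite (𝓞 F ⧸ P) := Ideal.finiteQuotientOfFreeOfNeBot P hb
  let _ : Fintype (𝓞 F ⧸ P) := Fintype.ofFinite _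
  have _ : Fact p.Prime := ⟨hp⟩
  have hp0 : ((p : ℕ) : 𝓞 F ⧸ P) = 0 := by
    rw [← map_natCast (Ideal.Quotient.mk P)]
    exact Ideal.Quotient.eq_zero_iff_mem.mpr hpP
  have _ : CharP (𝓞 F ⧸ P) p := charP_of hp hp0
  obtain ⟨a, -, ha⟩ := FiniteField.card (𝓞 F ⧸ P) p
  rw [Ideal.absNorm_apply, Submodule.cardQuot_apply, Nat.card_eq_fintype_card, ha]
  exact Nat.le_self_pow a.pos.ne' p

theorem norm_lower (p : ℕ) (hp : p.Prime) (T : Finset (Ideal (𝓞 F)))
    (hT : ∀ P ∈ T, P.IsPrime ∧ (p : 𝓞 F) ∈ P) (e : ℕ) (x : 𝓞 F) (hx : x ≠ 0)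
    (h : ∀ P ∈ T, x ∈ P ^ e) : (∏ P ∈ T, Ideal.absNorm P) ^ e ≤ (Algebra.norm ℤ x).natAbs := by
  classical
  have hne : ∀ P ∈ T, P ≠ ⊥ := by
    rintro P hP rfl
    have := (hT _ hP).2
    rw [Ideal.mem_bot] at this
    exact hp.ne_zero (by exact_mod_cast this)
  have h1 : ∏ P ∈ T, P ^ e ∣ Ideal.span {x} := by
    refine Finset.prod_dvd_of_coprime ?_ ?_
    · intro I hI J hJ hIJ
      have hIm : I.IsMaximal := (hT I hI).1.isMaximal (hne I hI)
      have hJm : J.IsMaximal := (hT J hJ).1.isMaximal (hne J hJ)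
      exact IsCoprime.pow (Ideal.isCoprime_iff_sup_eq.mpr (hIm.coprime_of_ne hJm hIJ))
    · intro I hI
      rw [Ideal.dvd_iff_le, Ideal.span_singleton_le_iff_mem]
      exact h I hI
  have h2 : Ideal.absNorm (∏ P ∈ T, P ^ e) ∣ (Algebra.norm ℤ x).natAbs := by
    rw [← Ideal.absNorm_span_singleton]
    exact Ideal.absNorm_dvd_absNorm_of_le (Ideal.le_of_dvd h1)
  have h3 : (Algebra.norm ℤ x).natAbs ≠ 0 := by
    rw [Ne, Int.natAbs_eq_zero, Algebra.norm_eq_zero_iff]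
    exact hx
  refine le_trans (le_of_eq ?_) (Nat.le_of_dvd (Nat.pos_of_ne_zero h3) h2)
  rw [Finset.prod_pow, map_pow, map_prod]

end

end Pool.Agent.Q191.ML
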