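import Mathlib

/-!
# A bound for complex numbers by their power sums
-/

set_option autoImplicit false

namespace Pool.Agent.Q191.ML

open Finset Polynomial

theorem esymm_le {ι : Type} [Fintype ι] [DecidableEq ι] (y : ι → ℂ) (K : ℝ) (hK : 1 ≤ K) (N : ℕ)
    (h : ∀ j, 1 ≤ j → j ≤ N → ‖∑ i, y i ^ j‖ ≤ K) :
    ∀ k, k ≤ N → ‖(univ.val.map y).esymm k‖ ≤ K ^ k := by
  intro k
  induction k using Nat.strong_induction_on with
  | _ k ih =>
    intro hk
    rcases Nat.eq_zero_or_pos k with rfl | hpos
    · simp [Multiset.esymm]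
    · have h1 := congrArg (MvPolynomial.aeval y) (MvPolynomial.mul_esymm_eq_sum ι ℂ k)
      simp only [map_mul, map_natCast, map_sum, map_pow, map_neg, map_one,
        MvPolynomial.aeval_esymm_eq_multiset_esymm] at h1
      have h2 : ∀ j, MvPolynomial.aeval y (MvPolynomial.psum ι ℂ j) = ∑ i, y i ^ j := by
        intro j
        simp [MvPolynomial.psum]
      simp only [h2] at h1
      have hk0 : (0 : ℝ) < k := by exact_mod_cast hpos
      have h3 : (k : ℝ) * ‖(univ.val.map y).esymm k‖ ≤ k * K ^ k := by
        calc (k : ℝ) * ‖(univ.val.map y).esymm k‖ = ‖(k : ℂ) * (univ.val.map y).esymm k‖ := by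
              rw [norm_mul, Complex.norm_natCast]
          _ = ‖∑ a ∈ antidiagonal k with a.1 < k,
              (-1) ^ a.1 * (univ.val.map y).esymm a.1 * ∑ i, y i ^ a.2‖ := by
              rw [h1, norm_mul, norm_pow, norm_neg, norm_one, one_pow, one_mul]
          _ ≤ ∑ a ∈ antidiagonal k with a.1 < k, K ^ k := by
              refine (norm_sum_le _ _).trans (sum_le_sum fun a ha => ?_)
              rw [mem_filter, HasAntidiagonal.mem_antidiagonal] at ha
              rw [norm_mul, norm_mul, norm_pow, norm_neg, norm_one, one_pow, one_mul]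
              have e1 := ih a.1 ha.2 (by omega)
              have e2 := h a.2 (by omega) (by omega)
              calc ‖(univ.val.map y).esymm a.1‖ * ‖∑ i, y i ^ a.2‖ ≤ K ^ a.1 * K :=
                    mul_le_mul e1 e2 (norm_nonneg _) (by positivity)
                _ = K ^ (a.1 + 1) := by rw [pow_succ]
                _ ≤ K ^ k := pow_le_pow_right₀ hK (by omega)
          _ = k * K ^ k := by
              rw [sum_const, nsmul_eq_mul]
              congr 1
              have : ((antidiagonal k).filter fun a => a.1 < k).card = k := by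
                have e : (antidiagonal k).filter (fun a => a.1 < k) =
                    (range k).map ⟨fun i => (i, k - i), fun a b hab => (Prod.mk.inj hab).1⟩ := by
                  ext ⟨a, b⟩
                  simp only [mem_filter, HasAntidiagonal.mem_antidiagonal, mem_map, mem_range,
                    Function.Embedding.coeFn_mk, Prod.mk.injEq]
                  constructor
                  · rintro ⟨h1, h2⟩
                    exact ⟨a, h2, rfl, by omega⟩
                  · rintro ⟨c, hc, rfl, rfl⟩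
                    exact ⟨by omega, hc⟩
                rw [e, card_map, card_range]
              exact_mod_cast this
      exact le_of_mul_le_mul_left h3 hk0

/-- Complex numbers `y i` (at most `N` of them) whose power sums of exponents `1, ..., N` are bounded
by `K ≥ 1` are bounded by `2 K`. -/
theorem le_of_psum {ι : Type} [Fintype ι] (y : ι → ℂ) (K : ℝ) (hK : 1 ≤ K) (N : ℕ)
    (hN : Fintype.card ι ≤ N) (h : ∀ j, 1 ≤ j → j ≤ N → ‖∑ i, y i ^ j‖ ≤ K) (i : ι) :
    ‖y i‖ ≤ 2 * K := by
  classical
  by_contra hcon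
  push Not at hcon
  set r := Fintype.card ι with hr
  have hcard : Multiset.card (univ.val.map y) = r := by simp [hr]
  have h1 := congrArg (eval (y i)) (Multiset.prod_X_sub_X_eq_sum_esymm (univ.val.map y))
  rw [hcard] at h1
  have h2 : eval (y i) (((univ.val.map y).map fun t => X - C t).prod) = 0 := by
    rw [eval_multiset_prod, Multiset.map_map]
    apply Multiset.prod_eq_zero
    rw [Multiset.mem_map]
    refine ⟨y i, ?_, by simp⟩
    rw [Multiset.mem_map]
    exact ⟨i, by simp, rfl⟩
  rw [h2, eval_finsetSum, sum_range_succ'] at h1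
  simp only [eval_mul, eval_pow, eval_neg, eval_one, eval_C, eval_X, pow_zero, one_mul,
    Nat.sub_zero] at h1
  have h00 : (Multiset.map y univ.val).esymm 0 = 1 := by simp [Multiset.esymm]
  rw [h00, one_mul] at h1
  have hx0 : (0 : ℝ) < ‖y i‖ := by linarith
  have h3 : ‖y i‖ ^ r ≤ ∑ j ∈ range r, ‖y i‖ ^ r * (1 / 2) ^ (j + 1) := by
    have h4 : y i ^ r = -∑ j ∈ range r,
        (-1) ^ (j + 1) * ((univ.val.map y).esymm (j + 1) * y i ^ (r - (j + 1))) := by
      linear_combination -h1
    have h5 : ‖y i‖ ^ r = ‖∑ j ∈ range r,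
        (-1) ^ (j + 1) * ((univ.val.map y).esymm (j + 1) * y i ^ (r - (j + 1)))‖ := by
      rw [← norm_pow, h4, norm_neg]
    refine h5.le.trans ((norm_sum_le _ _).trans (sum_le_sum fun j hj => ?_))
    rw [mem_range] at hj
    rw [norm_mul, norm_mul, norm_pow, norm_neg, norm_one, one_pow, one_mul, norm_pow]
    have e1 := esymm_le y K hK N h (j + 1) (by omega)
    have e2 : ‖y i‖ ^ r = ‖y i‖ ^ (j + 1) * ‖y i‖ ^ (r - (j + 1)) := by
      rw [← pow_add]
      congr 1
      omega
    have e3 : K ^ (j + 1) ≤ ‖y i‖ ^ (j + 1) * (1 / 2) ^ (j + 1) := by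
      rw [← mul_pow]
      exact pow_le_pow_left₀ (by linarith) (by linarith) _
    calc ‖(univ.val.map y).esymm (j + 1)‖ * ‖y i‖ ^ (r - (j + 1))
        ≤ (‖y i‖ ^ (j + 1) * (1 / 2) ^ (j + 1)) * ‖y i‖ ^ (r - (j + 1)) :=
          mul_le_mul_of_nonneg_right (e1.trans e3) (by positivity)
      _ = ‖y i‖ ^ r * (1 / 2) ^ (j + 1) := by
          rw [e2]
          ring
  have h5 : ∑ j ∈ range r, ‖y i‖ ^ r * ((1 : ℝ) / 2) ^ (j + 1) =
      ‖y i‖ ^ r * (1 - (1 / 2) ^ r) := by
    rw [← mul_sum]
    congr 1
    have : ∀ r : ℕ, ∑ j ∈ range r, ((1 : ℝ) / 2) ^ (j + 1) = 1 - (1 / 2) ^ r := by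
      intro r
      induction r with
      | zero => simp
      | succ r ih =>
        rw [sum_range_succ, ih, pow_succ]
        ring
    exact this r
  rw [h5] at h3
  have h6 : (0 : ℝ) < ‖y i‖ ^ r := by positivity
  have h7 : (0 : ℝ) < (1 / 2 : ℝ) ^ r := by positivity
  nlinarith [mul_pos h6 h7]

end Pool.Agent.Q191.ML
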