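import Pool.Agent.Y820.MG.Gap
import Pool.Agent.Q262.AB.Witt
import Pool.Agent.Q191.ML.Ide
import Pool.Agent.Q191.ML.Newt

/-!
# The relative traces of the powers of an integral matrix
-/

set_option autoImplicit false

namespace Pool.Agent.Q191.ML

open Finset NumberField Polynomial
open Pool.Agent.Q262.AB (fib mem_fib trace_fib card_fib exists_coord)
open Pool.Agent.Y820.MG (eigs eigs_spec isRoot_eigs exists_den fden_monic fden fden_eq)
open Pool.Agent.H225R3.Marg (emb norm_int_eq)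

variable {k F : Type} [Field k] [NumberField k] [Field F] [NumberField F] [Algebra F k] {n : ℕ}

/-- the relative trace of a power -/
noncomputable def rs (F : Type) [Field F] [Algebra F k] (A : Matrix (Fin n) (Fin n) (𝓞 k))
    (j : ℕ) : F :=
  Algebra.trace F k (((A ^ j).trace : 𝓞 k) : k)

theorem apply_rs (A : Matrix (Fin n) (Fin n) (𝓞 k)) (v : F →ₐ[ℚ] ℂ) (j : ℕ) :
    v (rs F A j) = ∑ x ∈ fib (L := k) v ×ˢ (univ : Finset (Fin n)),
      eigs A ((x.1 : k →+* ℂ), x.2) ^ j := by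
  unfold rs
  rw [trace_fib, sum_product]
  refine sum_congr rfl fun φ _ => ?_
  have h3 : ∑ i, eigs A ((φ : k →+* ℂ), i) ^ j = emb (φ : k →+* ℂ) ((A ^ j).trace) := by
    rw [← Pool.Agent.Y820.MG.trace_pow _ _ (eigs_spec A (φ : k →+* ℂ)) j]
    simp only [Matrix.trace, Matrix.diag_apply, map_sum]
    refine Finset.sum_congr rfl fun i _ => ?_
    rw [← map_pow]
    rfl
  rw [h3]
  rfl

theorem rs_integral (A : Matrix (Fin n) (Fin n) (𝓞 k)) (j : ℕ) : IsIntegral ℤ (rs F A j) :=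
  Algebra.isIntegral_trace (RingOfIntegers.isIntegral_coe _)

/-- the relative trace as an algebraic integer -/
noncomputable def rsO (F : Type) [Field F] [NumberField F] [Algebra F k]
    (A : Matrix (Fin n) (Fin n) (𝓞 k)) (j : ℕ) : 𝓞 F :=
  ⟨rs F A j, rs_integral A j⟩

open Classical in
theorem eig_integral (A : Matrix (Fin n) (Fin n) (𝓞 k)) (x : (k →+* ℂ) × Fin n) :
    IsIntegral ℤ (eigs A x) := by
  obtain ⟨P, hP⟩ := exists_den A
  have hm : P.Monic := by
    have h1 : (P.map (Int.castRingHom ℂ)).Monic := by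
      have := fden_monic (eigs A)
      rw [← hP] at this
      exact this
    exact monic_of_injective (Int.cast_injective) h1
  refine ⟨P, hm, ?_⟩
  have h2 : (P.map (Int.castRingHom ℂ)).eval (eigs A x) = 0 := by
    have h3 : P.map (Int.castRingHom ℂ) = fden (eigs A) := hP
    rw [h3]
    classical
    rw [fden_eq (eigs A) x, eval_mul, eval_sub, eval_X, eval_C, sub_self, zero_mul]
  rw [eval_map] at h2
  exact h2

/-- the congruences -/
theorem rs_cong (A : Matrix (Fin n) (Fin n) (𝓞 k)) (P : Ideal (𝓞 F)) (p : ℕ) (hp : p.Prime)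
    (hpP : (p : 𝓞 F) ∈ P) (L : ℕ) (hL : ∀ x : 𝓞 F, x ^ p ^ L - x ∈ P) (j l : ℕ) :
    rsO F A (j * p ^ (l + L)) - rsO F A (j * p ^ l) ∈ P ^ (l + 1) := by
  haveI : Fact p.Prime := ⟨hp⟩
  obtain ⟨σ⟩ : Nonempty (F →+* ℂ) := inferInstance
  set v : F →ₐ[ℚ] ℂ := σ.toRatAlgHom
  obtain ⟨c, hc, hs⟩ := exists_coord (p := p) v (fib (L := k) v ×ˢ (univ : Finset (Fin n)))
    (fun x => eigs A ((x.1 : k →+* ℂ), x.2) ^ j) (fun x _ => (eig_integral A _).pow j)
    (fun m => rs F A (j * p ^ m)) fun m => by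
      rw [apply_rs]
      refine sum_congr rfl fun x _ => ?_
      rw [pow_mul]
  set c' : ℕ → 𝓞 F := fun i => ⟨c i, hc i⟩ with hc'
  have h1 : ∀ m, rsO F A (j * p ^ m) = ∑ i ∈ range (m + 1), (p : 𝓞 F) ^ i *
      c' i ^ p ^ (m - i) := by
    intro m
    apply RingOfIntegers.ext
    have h2 : ((rsO F A (j * p ^ m) : 𝓞 F) : F) = rs F A (j * p ^ m) := rfl
    rw [h2, hs m]
    show _ = algebraMap (𝓞 F) F (∑ i ∈ range (m + 1), (p : 𝓞 F) ^ i * c' i ^ p ^ (m - i))
    rw [map_sum]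
    refine sum_congr rfl fun i _ => ?_
    rw [map_mul, map_pow, map_pow, map_natCast]
    rfl
  rw [h1, h1]
  exact ghost_mem P hpP L c' hL l


/-- the data: bounds for the eigenvalues -/
structure Bdd (A : Matrix (Fin n) (Fin n) (𝓞 k)) (S : Finset (k →+* ℂ)) (lam : ℝ) : Prop where
  one_le : 1 ≤ lam
  out : ∀ σ : k →+* ℂ, σ ∉ S → ∀ i, ‖eigs A (σ, i)‖ ≤ 1
  all : ∀ x, ‖eigs A x‖ ≤ lam

open Classical in
/-- the embeddings of `F` below `S` -/
noncomputable def below (F : Type) [Field F] [Algebra F k] (S : Finset (k →+* ℂ)) :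
    Finset (F →+* ℂ) :=
  S.image fun σ => σ.comp (algebraMap F k)

open Classical in
theorem norm_rs_le {A : Matrix (Fin n) (Fin n) (𝓞 k)} {S : Finset (k →+* ℂ)} {lam : ℝ}
    (h : Bdd A S lam) (v : F →ₐ[ℚ] ℂ) (j : ℕ) :
    ‖v (rs F A j)‖ ≤ n * Module.finrank F k *
      (if (v : F →+* ℂ) ∈ below F S then lam ^ j else 1) := by
  rw [apply_rs]
  have h1 : ∀ x ∈ fib (L := k) v ×ˢ (univ : Finset (Fin n)), ‖eigs A ((x.1 : k →+* ℂ), x.2) ^ j‖ ≤
      if (v : F →+* ℂ) ∈ below F S then lam ^ j else 1 := by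
    rintro ⟨φ, i⟩ hx
    rw [norm_pow]
    split_ifs with hv
    · exact pow_le_pow_left₀ (norm_nonneg _) (h.all _) j
    · refine pow_le_one₀ (norm_nonneg _) (h.out _ (fun hS => hv ?_) i)
      unfold below
      rw [mem_image]
      refine ⟨_, hS, ?_⟩
      ext a
      exact mem_fib.1 (mem_product.1 hx).1 a
  refine (norm_sum_le _ _).trans ((sum_le_sum h1).trans (le_of_eq ?_))
  rw [sum_const, card_product, card_fib, card_univ, Fintype.card_fin, nsmul_eq_mul]
  push_cast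
  ring

end Pool.Agent.Q191.ML
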